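import Mathlib
import Pool.Agent.H99.SoficDefs
import Pool.Agent.H99.RandExp

set_option autoImplicit false

namespace Pool.Agent.Results.MP_6ea370_an.Full

open Finset Equiv Filter Topology Pool.Agent.H99.Sofic Pool.Agent.H99.Rand

lemma ent_mem {G A : Type} [Group G] [Finite A] (S : Approx G) (X : Set (G → A)) :
    ent S X = ⊥ ∨ ∃ x : ℝ, 0 ≤ x ∧ ent S X = x := by
  by_cases h : ent S X = ⊥
  · exact Or.inl h
  right
  have h0 : 0 ≤ ent S X := by
    refine le_iInf fun F => le_iInf fun δ => ?_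
    have h1 : ⊥ < limsup (fun n => nlog (Nat.card (micro S X F δ n)) (Nat.card (S.K n))) atTop :=
      (bot_lt_iff_ne_bot.2 h).trans_le (iInf_le_of_le F (iInf_le _ δ))
    refine le_limsup_of_frequently_le ((frequently_lt_of_lt_limsup (h := h1)).mono fun n hn => ?_)
    unfold nlog at hn ⊢
    split_ifs with h2
    · simp [h2] at hn
    · exact EReal.coe_nonneg.2 (div_nonneg (Real.log_natCast_nonneg _) (Nat.cast_nonneg _))
  have h1 : ent S X ≤ (Real.log (Nat.card A) : ℝ) := by
    refine iInf_le_of_le ∅ (iInf_le_of_le ⟨1, one_pos⟩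
      (limsup_le_of_le (h := Eventually.of_forall fun n => ?_)))
    unfold nlog
    split_ifs with h2
    · exact bot_le
    · have := S.fin n
      apply EReal.coe_le_coe
      apply div_le_of_le_mul₀ (Nat.cast_nonneg _) (Real.log_natCast_nonneg _)
      rw [mul_comm, ← Real.log_pow, ← Nat.cast_pow, ← Nat.card_fun]
      exact Real.log_le_log (by exact_mod_cast Nat.pos_of_ne_zero h2)
        (by exact_mod_cast Finite.card_subtype_le _)
  refine ⟨(ent S X).toReal, EReal.toReal_nonneg h0, (EReal.coe_toReal ?_ h).symm⟩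
  exact ne_top_of_le_ne_top (EReal.coe_ne_top _) h1

/-- flip -/
def fl : Perm Bool := ⟨not, not, Bool.not_not, Bool.not_not⟩

/-- block action -/
def blk (a b : ℕ) : Perm (Fin a) × Perm (Fin b) × Perm Bool →* Perm (Fin a ⊕ Fin b × Bool) where
  toFun p := sumCongr p.1 (prodCongr p.2.1 p.2.2)
  map_one' := by ext (k | k) <;> simp
  map_mul' p q := by ext (k | ⟨k, l⟩) <;> simp

variable {r : ℕ}

/-- the action on the two parts -/
def act2 (σ : ∀ n, Fin (r + 2) → Perm (Fin n)) (a b : ℕ) :
    FreeGroup (Fin (r + 2)) →* Perm (Fin a ⊕ Fin b × Bool) :=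
  (blk a b).comp ((FreeGroup.lift (σ a)).prod ((FreeGroup.lift (σ b)).prod (FreeGroup.lift fun _ => fl)))

lemma card_sum (a b : ℕ) (P : Fin a ⊕ Fin b × Bool → Prop) [DecidablePred P] :
    #{k | P k} = #{v | P (Sum.inl v)} + (#{v | P (Sum.inr (v, true))} + #{v | P (Sum.inr (v, false))}) := by
  simp only [card_filter, Fintype.sum_sum_type, Fintype.sum_prod_type_right, Fintype.sum_bool]

/-- size of the bipartite part -/
noncomputable def bb (p : ℝ) (n : ℕ) : ℕ := ⌊p / 2 * n⌋₊

lemma bb_le {p : ℝ} (h0 : 0 < p) (n : ℕ) : 2 * (bb p n : ℝ) ≤ p * n := by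
  have : (bb p n : ℝ) ≤ p / 2 * n := Nat.floor_le (by positivity)
  linarith

lemma aa_eq {p : ℝ} (h0 : 0 < p) (h1 : p < 1) (n : ℕ) : n - 2 * bb p n + 2 * bb p n = n := by
  have h := bb_le h0 n
  have h2 : (0 : ℝ) ≤ n := Nat.cast_nonneg _
  have : 2 * bb p n ≤ n := by exact_mod_cast (show 2 * (bb p n : ℝ) ≤ n by nlinarith)
  omega

lemma aa_ge {p : ℝ} (h0 : 0 < p) (h1 : p < 1) (n : ℕ) : (1 - p) * n ≤ (n - 2 * bb p n : ℕ) := by
  have h : ((n - 2 * bb p n : ℕ) : ℝ) + 2 * bb p n = n := by exact_mod_cast aa_eq h0 h1 n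
  linarith [bb_le h0 n]

lemma bb_lim {p : ℝ} (h0 : 0 < p) : Tendsto (fun n : ℕ => (bb p n : ℝ) / n) atTop (𝓝 (p / 2)) :=
  (tendsto_nat_floor_mul_div_atTop (by positivity)).comp tendsto_natCast_atTop_atTop

lemma bb_ge {p : ℝ} (h0 : 0 < p) : ∀ᶠ n : ℕ in atTop, p / 4 * n ≤ bb p n := by
  filter_upwards [(bb_lim h0).eventually (lt_mem_nhds (show p / 4 < p / 2 by linarith)),
    eventually_gt_atTop 0] with n h1 h2
  exact ((lt_div_iff₀ (by exact_mod_cast h2)).1 h1).le

lemma aa_top {p : ℝ} (h0 : 0 < p) (h1 : p < 1) : Tendsto (fun n => n - 2 * bb p n) atTop atTop :=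
  tendsto_natCast_atTop_iff.1 (tendsto_atTop_mono (aa_ge h0 h1)
    (tendsto_natCast_atTop_atTop.const_mul_atTop (by linarith)))

lemma bb_top {p : ℝ} (h0 : 0 < p) : Tendsto (bb p) atTop atTop :=
  tendsto_natCast_atTop_iff.1 (tendsto_atTop_mono' _ (bb_ge h0)
    (tendsto_natCast_atTop_atTop.const_mul_atTop (by linarith)))

lemma card_K {p : ℝ} (h0 : 0 < p) (h1 : p < 1) (n : ℕ) :
    Nat.card (Fin (n - 2 * bb p n) ⊕ Fin (bb p n) × Bool) = n := by
  have := aa_eq h0 h1 n
  simp
  omega

/-- the sofic approximation -/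
noncomputable def app (σ : ∀ n, Fin (r + 2) → Perm (Fin n))
    (hσ : ∀ g : FreeGroup (Fin (r + 2)), g ≠ 1 → ∀ η : ℝ, 0 < η → ∀ᶠ n in atTop,
        (#{v : Fin n | FreeGroup.lift (σ n) g v = v} : ℝ) ≤ η * n)
    (p : ℝ) (h0 : 0 < p) (h1 : p < 1) : Approx (FreeGroup (Fin (r + 2))) where
  K n := Fin (n - 2 * bb p n) ⊕ Fin (bb p n) × Bool
  fin _ := inferInstance
  π n := act2 σ _ _
  mul s t := by
    refine tendsto_const_nhds.congr' ?_
    filter_upwards [eventually_gt_atTop 0] with n hn
    simp only [map_mul, Perm.mul_apply, Nat.card_congr (Equiv.subtypeUnivEquiv fun _ => trivial)]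
    rw [card_K h0 h1, div_self (by exact_mod_cast hn.ne')]
  free s hs := by
    classical
    rw [Metric.tendsto_nhds]
    intro η hη
    filter_upwards [eventually_gt_atTop 0, (aa_top h0 h1).eventually (hσ s hs (η / 2) (by linarith)),
      (bb_top h0).eventually (hσ s hs (η / 2) (by linarith))] with n hn ha hb
    have hn' : (0 : ℝ) < n := by exact_mod_cast hn
    have e : ((n - 2 * bb p n : ℕ) : ℝ) + 2 * bb p n = n := by exact_mod_cast aa_eq h0 h1 n
    have h2 := card_filter_add_card_filter_not (s := univ)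
      (fun k => act2 σ (n - 2 * bb p n) (bb p n) s k = k)
    rw [card_univ, ← Nat.card_eq_fintype_card, card_K h0 h1] at h2
    have h3 : (#{k | act2 σ (n - 2 * bb p n) (bb p n) s k = k} : ℝ) ≤ η / 2 * n := by
      rw [card_sum]
      have h4 : ∀ β, (#{v | act2 σ (n - 2 * bb p n) (bb p n) s (Sum.inr (v, β)) = Sum.inr (v, β)} : ℝ)
          ≤ η / 2 * bb p n := by
        intro β
        refine le_trans ?_ hb
        gcongr with v
        simp [act2, blk]
        tauto
      have h5 : (#{v | act2 σ (n - 2 * bb p n) (bb p n) s (Sum.inl v) = Sum.inl v} : ℝ)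
          ≤ η / 2 * (n - 2 * bb p n : ℕ) := by
        simpa [act2, blk] using ha
      push_cast
      nlinarith [h4 true, h4 false]
    rw [card_K h0 h1, Nat.card_eq_fintype_card, Fintype.card_subtype, Real.dist_eq, abs_lt]
    have h6 : (#{k | act2 σ (n - 2 * bb p n) (bb p n) s k = k} : ℝ) +
        #{k | act2 σ (n - 2 * bb p n) (bb p n) s k ≠ k} = n := by exact_mod_cast h2
    have h7 : (0 : ℝ) ≤ #{k | act2 σ (n - 2 * bb p n) (bb p n) s k = k} := Nat.cast_nonneg _
    constructor
    · rw [lt_sub_iff_add_lt, lt_div_iff₀ hn']; nlinarith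
    · rw [sub_lt_iff_lt_add, div_lt_iff₀ hn']; nlinarith

/-- sign change -/
def ng : Option Bool → Option Bool := Option.map not

lemma ng_ng (x : Option Bool) : ng (ng x) = x := by revert x; decide

/-- sign of a letter -/
def sg {m : ℕ} : Option (Bool × Fin m) → Option Bool := Option.map Prod.fst

/-- the shift -/
def XX (r m : ℕ) : Set (FreeGroup (Fin r) → Option (Bool × Fin m)) :=
  {x | ∀ t i, sg (x (t * FreeGroup.of i)) = ng (sg (x t))}

lemma sft (r m : ℕ) : IsSFT (XX r m) := by
  classical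
  refine ⟨{p | ∃ i, ∃ q : ({1, FreeGroup.of i} : Finset (FreeGroup (Fin r))) → Option (Bool × Fin m),
    p = ⟨_, q⟩ ∧ sg (q ⟨FreeGroup.of i, by simp⟩) ≠ ng (sg (q ⟨1, by simp⟩))}, ?_, ?_⟩
  · refine (Set.finite_iUnion fun i : Fin r => Set.finite_range (Sigma.mk
      (β := fun F : Finset (FreeGroup (Fin r)) => F → Option (Bool × Fin m))
      ({1, FreeGroup.of i} : Finset (FreeGroup (Fin r))))).subset ?_
    rintro _ ⟨i, q, rfl, -⟩
    exact Set.mem_iUnion.2 ⟨i, q, rfl⟩
  · ext x
    constructor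
    · rintro hx t _ ⟨i, q, rfl, hq⟩ h
      apply hq
      simp only at h
      rw [← h]
      simpa using hx t⁻¹ i
    · intro hx t i
      by_contra h
      exact hx t⁻¹ _ ⟨i, fun s => x (t⁻¹⁻¹ * s), rfl, by simpa using h⟩ rfl

/-- reference sign patterns -/
def cc (a b : ℕ) (x : Option Bool) : Fin a ⊕ Fin b × Bool → Option Bool :=
  Sum.elim (fun _ => none) fun q => if q.2 then x else ng x

lemma fixz {V Z : Type} [Fintype V] [DecidableEq Z] (φ : Z → Z) (τ : Perm V) (s : V → Z) (z : Z)
    (hV : 0 < Fintype.card V) (h1 : (#{v | s v ≠ z} : ℝ) ≤ 1 / 4 * Fintype.card V)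
    (h2 : (#{v | s (τ v) ≠ φ (s v)} : ℝ) ≤ 1 / 4 * Fintype.card V) : φ z = z ∧ ∃ v, s v = z := by
  classical
  have h3 : #{v | s (τ v) ≠ z} = #{v | s v ≠ z} := card_equiv τ (by simp)
  by_contra h
  have : #(univ : Finset V) ≤ #{v | s v ≠ z} + (#{v | s (τ v) ≠ z} + #{v | s (τ v) ≠ φ (s v)}) := by
    refine le_trans (card_le_card fun v _ => ?_)
      ((card_union_le _ _).trans (add_le_add_right (card_union_le _ _) _))
    simp only [mem_union, mem_filter, mem_univ, true_and]
    by_contra h4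
    push Not at h4
    exact h ⟨by rw [← h4.1, ← h4.2.2, h4.2.1, h4.1], v, h4.1⟩
  rw [h3, card_univ] at this
  have h5 : (Fintype.card V : ℝ) ≤ #{v | s v ≠ z} + (#{v | s v ≠ z} + #{v | s (τ v) ≠ φ (s v)}) := by
    exact_mod_cast this
  have h6 : (0 : ℝ) < Fintype.card V := by exact_mod_cast hV
  linarith

lemma card_sg (m : ℕ) (x : Option Bool) :
    #{α : Option (Bool × Fin m) | sg α = x} = if x = none then 1 else m := by
  rw [card_filter, Fintype.sum_option, Fintype.sum_prod_type]
  rcases x with _ | _ | _ <;> simp [sg]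

open Classical in
lemma near_le (m a b : ℕ) (hm : 1 ≤ m) (x : Option Bool) (L D : ℝ) (hL : 0 ≤ L) :
    (#{ω : Fin a ⊕ Fin b × Bool → Option (Bool × Fin m) |
      (#{k | sg (ω k) ≠ cc a b x k} : ℝ) ≤ D} : ℝ) ≤ Real.exp (L * D + (2 * b * Real.log m +
        Real.exp (-L) * Fintype.card (Option (Bool × Fin m)) * (a + 2 * b))) := by
  have h2 := gf (sg (m := m)) (cc a b x) L D hL ({ω : Fin a ⊕ Fin b × Bool → Option (Bool × Fin m) |
      (#{k | sg (ω k) ≠ cc a b x k} : ℝ) ≤ D} : Finset _) fun t ht => (mem_filter.1 ht).2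
  set y := Real.exp (-L) * Fintype.card (Option (Bool × Fin m))
  have hy : 0 ≤ y := by positivity
  have hm' : (1 : ℝ) ≤ m := by exact_mod_cast hm
  have h3 : ∏ k, ((#{α : Option (Bool × Fin m) | sg α = cc a b x k} : ℝ) + y) ≤
      ∏ k : Fin a ⊕ Fin b × Bool, Real.exp (Sum.elim (fun _ => 0) (fun _ => Real.log m) k + y) := by
    refine prod_le_prod (fun _ _ => by positivity) fun k _ => ?_
    have h4 := Real.add_one_le_exp y
    rw [card_sg, Real.exp_add]
    rcases k with k | k
    · simp [cc]; linarith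
    · simp only [Sum.elim_inr, Real.exp_log (show (0 : ℝ) < m by linarith)]
      split_ifs <;> push_cast <;> nlinarith
  rw [← Real.exp_sum] at h3
  have := mul_le_mul_of_nonneg_right (h2.trans h3) (Real.exp_pos (L * D)).le
  rw [mul_assoc, ← Real.exp_add, neg_add_cancel, Real.exp_zero, mul_one, ← Real.exp_add] at this
  refine this.trans (le_of_eq ?_)
  congr 1
  simp [sum_add_distrib]
  ring

/-- concrete microstates -/
def mic (σ : ∀ n, Fin (r + 2) → Perm (Fin n)) (a b m : ℕ) (F : Finset (FreeGroup (Fin (r + 2))))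
    (δ : ℝ) : Set (Fin a ⊕ Fin b × Bool → Option (Bool × Fin m)) :=
  {ω | (1 - δ) * Nat.card (Fin a ⊕ Fin b × Bool) ≤
    Nat.card {k : Fin a ⊕ Fin b × Bool // ∃ x ∈ XX (r + 2) m, ∀ s ∈ F, ω (act2 σ a b s⁻¹ k) = x s}}

lemma main (r : ℕ) (h : ℝ) (hh : 0 < h) : ∃ (S : Approx (FreeGroup (Fin (r + 2)))) (m : ℕ),
    ent S (XX (r + 2) m) = h := by
  classical
  obtain ⟨σ, hσ, hE⟩ := exists_rand (Z := Option Bool × Option Bool) (fun z => (ng z.2, ng z.1)) r
  obtain ⟨m, hm⟩ := exists_nat_gt (Real.exp h)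
  have hm1 : (1 : ℝ) < m := (Real.one_lt_exp_iff.2 hh).trans hm
  have hm2 : 1 ≤ m := by exact_mod_cast hm1.le
  have hl : h < Real.log m := (Real.lt_log_iff_exp_lt (by linarith)).2 hm
  set p := h / Real.log m with hp
  have h0 : 0 < p := div_pos hh (by linarith)
  have h1 : p < 1 := (div_lt_one (by linarith)).2 hl
  have hph : p * Real.log m = h := div_mul_cancel₀ _ (by linarith)
  have e : ∀ n, ((n - 2 * bb p n : ℕ) : ℝ) + 2 * bb p n = n := fun n => by
    exact_mod_cast aa_eq h0 h1 n
  have hact : ∀ a b i x k, cc a b x (act2 σ a b (FreeGroup.of i) k) = ng (cc a b x k) := by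
    rintro a b i x (k | ⟨k, _ | _⟩) <;> simp [cc, act2, blk, fl, ng_ng]
    rfl
  refine ⟨app σ hσ p h0 h1, m, le_antisymm ?_ ?_⟩
  · refine EReal.le_of_forall_lt_iff_le.1 fun z hz => ?_
    have hz' : h < z := EReal.coe_lt_coe_iff.1 hz
    set η := (z - h) / 3 with hη
    have hη0 : 0 < η := by linarith
    obtain ⟨L, hL1, hL2⟩ : ∃ L : ℝ, 1 ≤ L ∧
        Real.exp (-L) * Fintype.card (Option (Bool × Fin m)) ≤ η := by
      have := (Real.tendsto_exp_neg_atTop_nhds_zero.mul_const
        (Fintype.card (Option (Bool × Fin m)) : ℝ)).eventually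
        (ge_mem_nhds (show 0 * (Fintype.card (Option (Bool × Fin m)) : ℝ) < η by simpa using hη0))
      exact ((eventually_ge_atTop 1).and this).exists
    set ε := min (1 / 4) (η / L) with hε
    have hε0 : 0 < ε := lt_min (by norm_num) (by positivity)
    have hε1 : L * ε ≤ η := by
      rw [mul_comm, ← le_div_iff₀ (by linarith)]
      exact min_le_right _ _
    obtain ⟨δ0, hδ0, hev⟩ := hE ε hε0
    set δ1 := min δ0 (1 / 4) with hδ1
    have hδ1' : 0 < δ1 := lt_min hδ0 (by norm_num)
    set q := min (1 - p) (p / 8) with hq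
    have hq0 : 0 < q := lt_min (by linarith) (by linarith)
    refine iInf_le_of_le {1, (FreeGroup.of 0)⁻¹, (FreeGroup.of 1)⁻¹}
      (iInf_le_of_le ⟨δ1 * q, by positivity⟩ (limsup_le_of_le (h := ?_)))
    have hl3 : ∀ᶠ n : ℕ in atTop, Real.log 3 / n ≤ η :=
      (tendsto_const_div_atTop_nhds_zero_nat _).eventually (ge_mem_nhds hη0)
    filter_upwards [eventually_gt_atTop 0, (aa_top h0 h1).eventually hev, (bb_top h0).eventually hev,
      (aa_top h0 h1).eventually (eventually_gt_atTop 0), (bb_top h0).eventually (eventually_gt_atTop 0),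
      bb_ge h0, hl3] with n hn ha hb ha0 hb0 hb1 hn3
    have hn' : (0 : ℝ) < n := by exact_mod_cast hn
    have ha1 := aa_ge h0 h1 n
    have e1 := e n
    have hK := card_K h0 h1 n
    have hbl := bb_le h0 n
    have hsub : ∀ ω ∈ mic σ (n - 2 * bb p n) (bb p n) m
        {1, (FreeGroup.of 0)⁻¹, (FreeGroup.of 1)⁻¹} (δ1 * q),
        ∃ x, (#{k | sg (ω k) ≠ cc _ _ x k} : ℝ) ≤ ε * n := by
      intro ω hω
      simp only [mic, Set.mem_ofPred_eq] at hω
      rw [hK, Nat.card_eq_fintype_card, Fintype.card_subtype] at hω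
      generalize n - 2 * bb p n = a at *
      generalize bb p n = b at *
      have hbad : ∀ i : Fin (r + 2), i = 0 ∨ i = 1 →
          (#{k | sg (ω (act2 σ a b (FreeGroup.of i) k)) ≠ ng (sg (ω k))} : ℝ) ≤ δ1 * q * n := by
        intro i hi
        have h2 := card_filter_add_card_filter_not (s := univ)
          (fun k => sg (ω (act2 σ a b (FreeGroup.of i) k)) = ng (sg (ω k)))
        rw [card_univ, ← Nat.card_eq_fintype_card, hK] at h2
        have h3 : (#{k | sg (ω (act2 σ a b (FreeGroup.of i) k)) = ng (sg (ω k))} : ℝ) +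
          #{k | sg (ω (act2 σ a b (FreeGroup.of i) k)) ≠ ng (sg (ω k))} = n := by exact_mod_cast h2
        have h4 : (1 - δ1 * q) * n ≤
            #{k | sg (ω (act2 σ a b (FreeGroup.of i) k)) = ng (sg (ω k))} := by
          refine hω.trans ?_
          gcongr with k
          rintro ⟨x, hx, h5⟩
          have h6 := h5 1 (by simp)
          have h7 := h5 (FreeGroup.of i)⁻¹ (by rcases hi with rfl | rfl <;> simp)
          have h8 := hx (FreeGroup.of i)⁻¹ i
          simp only [inv_one, map_one, Perm.one_apply, inv_inv, inv_mul_cancel] at h6 h7 h8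
          rw [h6, h7, h8, ng_ng]
        linarith
      have hq1 : q * n ≤ a := (mul_le_mul_of_nonneg_right (min_le_left _ _) hn'.le).trans ha1
      have hq2 : 2 * (q * n) ≤ b := by
        have := mul_le_mul_of_nonneg_right (min_le_right (1 - p) (p / 8)) hn'.le
        linarith
      have g1 : ∀ i : Fin (r + 2), i = 0 ∨ i = 1 → (#{v | (sg (ω (Sum.inl (σ a i v))),
          sg (ω (Sum.inl (σ a i v)))) ≠ (ng (sg (ω (Sum.inl v))), ng (sg (ω (Sum.inl v))))} : ℝ)
          ≤ δ1 * a := by
        intro i hi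
        have h2 := hbad i hi
        rw [card_sum] at h2
        push_cast at h2
        refine le_trans (le_trans ?_ (le_trans (le_add_of_nonneg_right (by positivity)) h2))
          (by nlinarith)
        gcongr with v
        simp [act2, blk]
      have g2 : ∀ i : Fin (r + 2), i = 0 ∨ i = 1 → (#{v | (sg (ω (Sum.inr (σ b i v, true))),
          sg (ω (Sum.inr (σ b i v, false)))) ≠
          (ng (sg (ω (Sum.inr (v, false)))), ng (sg (ω (Sum.inr (v, true)))))} : ℝ) ≤ δ1 * b := by
        intro i hi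
        have h2 := hbad i hi
        rw [card_sum] at h2
        push_cast at h2
        refine le_trans (le_trans ?_ (le_trans (le_add_of_nonneg_left (by positivity)) h2))
          (by nlinarith)
        norm_cast
        refine (card_le_card fun v => ?_).trans (card_union_le _ _)
        simp [act2, blk, fl]
        tauto
      have d1 : δ1 ≤ δ0 := min_le_left _ _
      have d2 : δ1 ≤ 1 / 4 := min_le_right _ _
      have d3 : ε ≤ 1 / 4 := min_le_left _ _
      obtain ⟨z1, hz1⟩ := ha (fun v => (sg (ω (Sum.inl v)), sg (ω (Sum.inl v))))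
        (mem_filter.2 ⟨mem_univ _, (g1 0 (by simp)).trans (by gcongr)⟩)
        (mem_filter.2 ⟨mem_univ _, (g1 1 (by simp)).trans (by gcongr)⟩)
      obtain ⟨z2, hz2⟩ := hb (fun v => (sg (ω (Sum.inr (v, true))), sg (ω (Sum.inr (v, false)))))
        (mem_filter.2 ⟨mem_univ _, (g2 0 (by simp)).trans (by gcongr)⟩)
        (mem_filter.2 ⟨mem_univ _, (g2 1 (by simp)).trans (by gcongr)⟩)
      obtain ⟨f1, v1, f2⟩ := fixz (fun z : Option Bool × Option Bool => (ng z.2, ng z.1)) (σ a 0)
        _ z1 (by simpa using ha0) (hz1.trans (by rw [Fintype.card_fin]; gcongr))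
        ((g1 0 (by simp)).trans (by rw [Fintype.card_fin]; gcongr))
      obtain ⟨f3, -⟩ := fixz (fun z : Option Bool × Option Bool => (ng z.2, ng z.1)) (σ b 0)
        _ z2 (by simpa using hb0) (hz2.trans (by rw [Fintype.card_fin]; gcongr))
        ((g2 0 (by simp)).trans (by rw [Fintype.card_fin]; gcongr))
      have f4 : z1 = (none, none) := by
        have : ∀ u : Option Bool, ng u = u → u = none := by decide
        rw [← f2] at f1 ⊢
        have f6 : sg (ω (Sum.inl v1)) = none := this _ (congrArg Prod.fst f1)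
        rw [f6]
      have f5 : z2.2 = ng z2.1 := (congrArg Prod.snd f3).symm
      refine ⟨z2.1, ?_⟩
      rw [card_sum]
      push_cast
      have k1 : (#{v | sg (ω (Sum.inl v)) ≠ cc a b z2.1 (Sum.inl v)} : ℝ) ≤ ε * a := by
        refine le_trans ?_ hz1
        gcongr with v
        simp [cc, f4]
      have k2 : ∀ β, (#{v | sg (ω (Sum.inr (v, β))) ≠ cc a b z2.1 (Sum.inr (v, β))} : ℝ) ≤ ε * b := by
        intro β
        refine le_trans ?_ hz2
        gcongr with v
        cases β <;> simp [cc, Prod.ext_iff, f5] <;> tauto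
      rw [← e1]
      linarith [k2 true, k2 false]
    have hc : (Nat.card (mic σ (n - 2 * bb p n) (bb p n) m
        {1, (FreeGroup.of 0)⁻¹, (FreeGroup.of 1)⁻¹} (δ1 * q)) : ℝ) ≤
        3 * Real.exp (L * (ε * n) + (2 * bb p n * Real.log m +
          Real.exp (-L) * Fintype.card (Option (Bool × Fin m)) * n)) := by
      have h2 : Nat.card (mic σ (n - 2 * bb p n) (bb p n) m
          {1, (FreeGroup.of 0)⁻¹, (FreeGroup.of 1)⁻¹} (δ1 * q)) ≤ ∑ x : Option Bool,
          #{ω : Fin (n - 2 * bb p n) ⊕ Fin (bb p n) × Bool → Option (Bool × Fin m) |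
            (#{k | sg (ω k) ≠ cc _ _ x k} : ℝ) ≤ ε * n} := by
        refine le_trans ?_ card_biUnion_le
        rw [Nat.card_coe_set_eq, ← Set.ncard_coe_finset]
        refine Set.ncard_le_ncard (fun ω hω => ?_) (Finset.finite_toSet _)
        obtain ⟨x, hx⟩ := hsub ω hω
        exact mem_coe.2 (mem_biUnion.2 ⟨x, mem_univ _, mem_filter.2 ⟨mem_univ _, hx⟩⟩)
      refine (Nat.cast_le.2 h2).trans ?_
      push_cast
      refine (sum_le_sum fun x _ => near_le m _ _ hm2 x L (ε * n) (by linarith)).trans ?_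
      simp [e1]
    change nlog (Nat.card (mic σ (n - 2 * bb p n) (bb p n) m
        {1, (FreeGroup.of 0)⁻¹, (FreeGroup.of 1)⁻¹} (δ1 * q)))
        (Nat.card (Fin (n - 2 * bb p n) ⊕ Fin (bb p n) × Bool)) ≤ z
    unfold nlog
    split_ifs with h2
    · exact bot_le
    · apply EReal.coe_le_coe
      have h3 := Real.log_le_log (by exact_mod_cast Nat.pos_of_ne_zero h2) hc
      rw [Real.log_mul (by norm_num) (Real.exp_pos _).ne', Real.log_exp] at h3
      rw [hK, div_le_iff₀ hn']
      rw [div_le_iff₀ hn'] at hn3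
      have h4 : 0 ≤ Real.log m := by linarith
      have h5 := mul_le_mul_of_nonneg_right hbl h4
      have h6 := mul_le_mul_of_nonneg_right hε1 hn'.le
      have h7 := mul_le_mul_of_nonneg_right hL2 hn'.le
      have h8 : z = h + 3 * η := by rw [hη]; ring
      have h9 : p * n * Real.log m = h * n := by rw [← hph]; ring
      rw [h8]
      linarith
  · refine le_iInf fun F => le_iInf fun δ => ?_
    have hlim : Tendsto (fun n : ℕ => ((2 * (bb p n / n) * Real.log m : ℝ) : EReal)) atTop (𝓝 h) := by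
      rw [EReal.tendsto_coe, show h = 2 * (p / 2) * Real.log m by rw [← hph]; ring]
      exact ((bb_lim h0).const_mul 2).mul_const _
    rw [← hlim.limsup_eq]
    refine limsup_le_limsup (Eventually.of_forall fun n => ?_)
    have hK := card_K h0 h1 n
    have h2 : m ^ (2 * bb p n) ≤ Nat.card (mic σ (n - 2 * bb p n) (bb p n) m F δ) := by
      have h3 : m ^ (2 * bb p n) = #(Fintype.piFinset fun k => ({α : Option (Bool × Fin m) |
          sg α = cc (n - 2 * bb p n) (bb p n) (some true) k} : Finset _)) := by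
        rw [Fintype.card_piFinset]
        simp only [card_sg]
        simp [cc, Fintype.prod_prod_type, ng, ← pow_mul, ← pow_two]
      rw [h3, Nat.card_coe_set_eq, ← Set.ncard_coe_finset]
      refine Set.ncard_le_ncard (fun ω hω => ?_) (Set.toFinite _)
      have h4 : ∀ k, sg (ω k) = cc _ _ (some true) k := fun k =>
        (mem_filter.1 (Fintype.mem_piFinset.1 hω k)).2
      simp only [mic, Set.mem_ofPred_eq]
      rw [Nat.card_congr (Equiv.subtypeUnivEquiv fun k => ?_)]
      · exact mul_le_of_le_one_left (Nat.cast_nonneg _) (by linarith [δ.2])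
      · refine ⟨fun s => ω (act2 σ _ _ s⁻¹ k), fun t i => ?_, fun _ _ => rfl⟩
        simp only [h4]
        rw [← ng_ng (cc _ _ _ (act2 σ _ _ (t * FreeGroup.of i)⁻¹ k)), ← hact _ _ i, ← Perm.mul_apply,
          ← map_mul]
        simp
    have h3 : 0 < m ^ (2 * bb p n) := by positivity
    change _ ≤ nlog (Nat.card (mic σ (n - 2 * bb p n) (bb p n) m F δ))
        (Nat.card (Fin (n - 2 * bb p n) ⊕ Fin (bb p n) × Bool))
    simp only [nlog, if_neg (h3.trans_le h2).ne']
    apply EReal.coe_le_coe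
    rw [hK, show 2 * ((bb p n : ℝ) / n) * Real.log m = (2 * bb p n : ℕ) * Real.log m / n by
      push_cast; ring, ← Real.log_pow]
    gcongr
    exact_mod_cast h2

/-- For every r ≥ 2 the sofic entropies of shifts of finite type over the free group of rank r
are exactly -∞ and the nonnegative real numbers. -/
theorem result (r : ℕ) (hr : 2 ≤ r) :
    {h : EReal | ∃ (S : Approx (FreeGroup (Fin r))) (A : Type) (_ : Finite A)
      (X : Set (FreeGroup (Fin r) → A)), IsSFT X ∧ h = ent S X} =
    {h : EReal | h = ⊥ ∨ ∃ x : ℝ, 0 ≤ x ∧ h = x} := by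
  obtain ⟨r, rfl⟩ : ∃ r', r = r' + 2 := ⟨r - 2, by omega⟩
  ext h
  constructor
  · rintro ⟨S, A, _, X, -, rfl⟩
    exact ent_mem S X
  · obtain ⟨S, -⟩ := main r 1 one_pos
    have hpos : ∀ᶠ n in atTop, 0 < Nat.card (S.K n) := by
      filter_upwards [(S.mul 1 1).eventually (lt_mem_nhds one_half_lt_one)] with n hn
      by_contra h0
      rw [Nat.eq_zero_of_not_pos h0] at hn
      norm_num at hn
    rintro (rfl | ⟨x, hx, rfl⟩)
    · refine ⟨S, Unit, inferInstance, ∅, ⟨Set.range (Sigma.mk ∅), Set.finite_range _, ?_⟩, ?_⟩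
      · ext x
        simp only [Set.mem_empty_iff_false, Set.mem_ofPred_eq, false_iff]
        exact fun h => h 1 _ ⟨fun _ => (), rfl⟩ rfl
      · symm
        rw [eq_bot_iff]
        refine iInf_le_of_le ∅ (iInf_le_of_le ⟨1 / 2, by norm_num⟩ (limsup_le_of_le (h := ?_)))
        filter_upwards [hpos] with n hn
        have : micro S (∅ : Set (FreeGroup (Fin (r + 2)) → Unit)) ∅ (1 / 2) n = ∅ := by
          ext ω
          have : (0 : ℝ) < Nat.card (S.K n) := by exact_mod_cast hn
          simp [micro]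
          linarith
        simp only [this]
        simp [nlog]
    · rcases hx.eq_or_lt with rfl | hx
      · refine ⟨S, Unit, inferInstance, Set.univ, ⟨∅, Set.finite_empty, by simp⟩, ?_⟩
        have : ∀ F (δ : {δ : ℝ // 0 < δ}) n,
            micro S (Set.univ : Set (FreeGroup (Fin (r + 2)) → Unit)) F δ n = Set.univ := by
          intro F δ n
          ext ω
          simp only [micro, Set.mem_ofPred_eq, Set.mem_univ, iff_true]
          rw [Nat.card_congr (Equiv.subtypeUnivEquiv fun k => ⟨fun _ => (), trivial, by simp⟩)]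
          exact mul_le_of_le_one_left (Nat.cast_nonneg _) (by linarith [δ.2])
        have h2 : Nonempty {δ : ℝ // 0 < δ} := ⟨⟨1, one_pos⟩⟩
        simp [ent, this, nlog]
      · obtain ⟨S', m, h⟩ := main r x hx
        exact ⟨S', _, inferInstance, _, sft _ m, h.symm⟩

end Pool.Agent.Results.MP_6ea370_an.Full
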